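import Pool.Agent.Work.MP_3175b5_al_helper36.Config

/-!
Disjointness of the 25 special cosets, checked on numerical codes of the elements.
-/

namespace Pool.Agent.MP3175b5.Counter

open Equiv

/-- the images of all points, written in base 4 -/
def code (g : G) : ℕ :=
  (g.1.1 0).val + 4 * ((g.1.1 1).val + 4 * ((g.1.1 2).val + 4 * ((g.1.1 3).val +
  4 * ((g.1.2 0).val + 4 * ((g.1.2 1).val + 4 * ((g.1.2 2).val + 4 * ((g.1.2 3).val +
  4 * ((g.2 0).val + 4 * ((g.2 1).val + 4 * (g.2 2).val)))))))))

/-- the part of the code belonging to `K` -/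
def kcode (g : K) : ℕ :=
  (g.1 0).val + 4 * ((g.1 1).val + 4 * ((g.1 2).val + 4 * ((g.1 3).val +
  4 * ((g.2 0).val + 4 * ((g.2 1).val + 4 * ((g.2 2).val + 4 * (g.2 3).val))))))

def tab : List (List ℕ) :=
[[1238217, 1186761],
  [2169699, 1579875, 400227],
  [2221257, 1631433, 451785, 2169801, 1579977, 400329],
  [2417892, 2417874, 2417865, 2405604, 2405586, 2405577],
  [648420, 648402, 648393, 2208996, 2208978, 2208969],
  [636132, 636114, 636105, 439524, 439506, 439497],
  [1225956, 1225938, 1225929, 1619172, 1619154, 1619145],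
  [2399277, 2413233, 2366409, 2414733, 2367201, 2396985],
  [629805, 643761, 596937, 2218125, 2170593, 2200377],
  [645261, 627513, 597729, 448653, 430905, 401121],
  [1235085, 1217337, 1187553, 1628301, 1610553, 1580769],
  [2390115, 2410851, 2366307, 2414691, 2373987, 2378595],
  [620643, 641379, 596835, 2218083, 2177379, 2181987],
  [645219, 609123, 604515, 448611, 412515, 407907],
  [1235043, 1198947, 1194339, 1628259, 1592163, 1587555],
  [2221284, 2202669, 2193507, 2208876, 2190561, 2218023],
  [451812, 433197, 424035, 2405484, 2387169, 2414631],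
  [439404, 448551, 421089, 636012, 645159, 617697],
  [1619052, 1628199, 1600737, 1225836, 1234983, 1207521],
  [1238244, 1219629, 1210467, 1631460, 1612845, 1603683],
  [2221266, 2216625, 2214243, 2218098, 2213601, 2220435],
  [451794, 447153, 444771, 2414706, 2410209, 2417043],
  [448626, 450963, 444129, 645234, 647571, 640737],
  [1628274, 1630611, 1623777, 1235058, 1237395, 1230561],
  [1238226, 1233585, 1231203, 1631442, 1626801, 1624419]]

def tabf (i : Fin 25) : List ℕ := tab.getD i.val []

set_option maxRecDepth 100000 in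
theorem code_eq (i : Fin 25) : (subL i).map (fun h => code (rep i * h)) = tabf i := by
  revert i; decide +kernel

theorem tab_disj (i j : Fin 25) (h : i ≠ j) : ∀ a ∈ tabf i, a ∉ tabf j := by
  revert i j; decide +kernel

theorem tab_nodup (i : Fin 25) : (tabf i).Nodup := by
  revert i; decide +kernel

def sz (i : Fin 25) : ℕ := if i = 0 then 2 else if i = 1 then 3 else 6

theorem tab_length (i : Fin 25) : (tabf i).length = sz i := by
  revert i; decide +kernel

/-- codes of the 24 elements of `K` over which the special cosets lie -/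
def XC : List ℕ := [7011, 7113, 7905, 14691, 19299, 27873, 30819, 37689, 39981, 46188, 46281, 46290, 46308, 50913, 51555, 53937, 55335, 55395, 55410, 55437, 57747, 58569, 58578, 58596]

theorem tab_mod (i : Fin 25) : ∀ a ∈ tabf i, a % 65536 ∈ XC := by
  revert i; decide +kernel

theorem digit_aux {a b a' b' : ℕ} (ha : a < 4) (ha' : a' < 4) (h : a + 4 * b = a' + 4 * b') :
    a = a' ∧ b = b' := by omega

theorem kcode_lt (g : K) : kcode g < 65536 := by
  unfold kcode
  have l : ∀ (p : Perm (Fin 4)) i, (p i).val < 4 := fun p i => (p i).2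
  have a0 := l g.1 0
  have a1 := l g.1 1
  have a2 := l g.1 2
  have a3 := l g.1 3
  have a4 := l g.2 0
  have a5 := l g.2 1
  have a6 := l g.2 2
  have a7 := l g.2 3
  omega

theorem code_mod (g : G) : code g % 65536 = kcode g.1 := by
  have h : code g = kcode g.1 + 65536 * ((g.2 0).val + 4 * ((g.2 1).val + 4 * (g.2 2).val)) := by
    unfold code kcode
    ring
  rw [h, Nat.add_mul_mod_self_left, Nat.mod_eq_of_lt (kcode_lt g.1)]

theorem kcode_inj : Function.Injective kcode := by
  intro g h e
  unfold kcode at e
  have l : ∀ (p : Perm (Fin 4)) i, (p i).val < 4 := fun p i => (p i).2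
  obtain ⟨e0, e⟩ := digit_aux (l _ _) (l _ _) e
  obtain ⟨e1, e⟩ := digit_aux (l _ _) (l _ _) e
  obtain ⟨e2, e⟩ := digit_aux (l _ _) (l _ _) e
  obtain ⟨e3, e⟩ := digit_aux (l _ _) (l _ _) e
  obtain ⟨e4, e⟩ := digit_aux (l _ _) (l _ _) e
  obtain ⟨e5, e⟩ := digit_aux (l _ _) (l _ _) e
  obtain ⟨e6, e7⟩ := digit_aux (l _ _) (l _ _) e
  have f1 : g.1 = h.1 := by
    ext i
    fin_cases i
    · exact e0
    · exact e1
    · exact e2
    · exact e3
  have f2 : g.2 = h.2 := by
    ext i
    fin_cases i
    · exact e4
    · exact e5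
    · exact e6
    · exact e7
  exact Prod.ext f1 f2

theorem subL_nodup (i : Fin 25) : (subL i).Nodup := by
  have h := tab_nodup i
  rw [← code_eq i] at h
  exact h.of_map _

theorem card_subL (i : Fin 25) : (subL i).toFinset.card = sz i := by
  rw [List.toFinset_card_of_nodup (subL_nodup i), ← tab_length i, ← code_eq i, List.length_map]

/-- the elements of `K` over which the special cosets lie -/
def XS : Finset K := Finset.univ.filter (fun y => kcode y ∈ XC)

theorem card_XS : XS.card ≤ 24 := by
  have h : (XS.image kcode).card = XS.card := Finset.card_image_of_injective _ kcode_inj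
  rw [← h]
  calc (XS.image kcode).card ≤ XC.toFinset.card := by
        apply Finset.card_le_card
        intro c hc
        obtain ⟨y, hy, rfl⟩ := Finset.mem_image.1 hc
        rw [List.mem_toFinset]
        exact (Finset.mem_filter.1 hy).2
    _ ≤ XC.length := List.toFinset_card_le XC
    _ = 24 := by decide

theorem mem_XS (i : Fin 25) (h : G) (hh : h ∈ subL i) : (rep i * h).1 ∈ XS := by
  rw [XS, Finset.mem_filter]
  refine ⟨Finset.mem_univ _, ?_⟩
  rw [← code_mod]
  apply tab_mod i
  rw [← code_eq i]
  exact List.mem_map.2 ⟨h, hh, rfl⟩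

end Pool.Agent.MP3175b5.Counter
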