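import Mathlib

/-!
Data of a counterexample to the disjoint cosets conjecture in the group `S_4 x S_4 x S_3`:
representatives and generators of 25 left cosets.
-/

namespace Pool.Agent.MP3175b5.Counter

open Equiv

/-- base group `S_4 x S_4` -/
abbrev K := Perm (Fin 4) × Perm (Fin 4)
/-- the ambient group `S_4 x S_4 x S_3`, of order 3456 -/
abbrev G := K × Perm (Fin 3)

def e4 : Perm (Fin 4) := 1
def w4 (a b : Fin 4) : Perm (Fin 4) := swap a b
def c4 (a b c : Fin 4) : Perm (Fin 4) := swap a b * swap b c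
def d4 (a b c d : Fin 4) : Perm (Fin 4) := swap a b * swap c d
def q4 (a b c d : Fin 4) : Perm (Fin 4) := swap a b * swap b c * swap c d
def e3 : Perm (Fin 3) := 1
def w3 (a b : Fin 3) : Perm (Fin 3) := swap a b
def c3 (a b c : Fin 3) : Perm (Fin 3) := swap a b * swap b c

/-- an element given by its components -/
def mk (a b : Perm (Fin 4)) (c : Perm (Fin 3)) : G := ((a, b), c)

/-- the 23 special cosets of order 6: representative, element of order 3, involution -/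
def lights : List (G × G × G) :=
  [(mk (c4 0 1 2) e4 (w3 0 1),
    mk e4 e4 (c3 0 1 2),
    mk e4 (d4 0 3 1 2) e3),
   (mk e4 e4 e3,
    mk (c4 0 2 1) e4 e3,
    mk e4 (w4 2 3) e3),
   (mk e4 e4 (c3 0 1 2),
    mk (c4 0 2 1) e4 e3,
    mk e4 (w4 2 3) (w3 1 2)),
   (mk e4 (w4 2 3) (c3 0 1 2),
    mk (c4 0 2 1) e4 e3,
    mk e4 e4 (w3 0 1)),
   (mk e4 (w4 2 3) (c3 0 2 1),
    mk (c4 0 2 1) e4 e3,
    mk e4 e4 (w3 0 1)),
   (mk (c4 0 1 3) (c4 1 3 2) e3,
    mk (c4 1 3 2) (c4 0 3 1) e3,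
    mk (w4 2 3) (w4 1 3) e3),
   (mk (c4 0 1 3) (c4 1 3 2) (c3 0 1 2),
    mk (c4 1 3 2) (c4 0 3 1) e3,
    mk (w4 2 3) (w4 1 3) (w3 1 2)),
   (mk (q4 0 1 3 2) (w4 1 2) (c3 0 1 2),
    mk (c4 1 3 2) (c4 0 3 1) e3,
    mk e4 e4 (w3 0 1)),
   (mk (q4 0 1 3 2) (w4 1 2) (c3 0 2 1),
    mk (c4 1 3 2) (c4 0 3 1) e3,
    mk e4 e4 (w3 0 1)),
   (mk (c4 0 3 1) (c4 1 2 3) e3,
    mk e4 (c4 0 3 2) e3,
    mk e4 (w4 2 3) e3),
   (mk (c4 0 3 1) (c4 1 2 3) (c3 0 1 2),
    mk e4 (c4 0 3 2) e3,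
    mk e4 (w4 2 3) (w3 1 2)),
   (mk (c4 0 3 1) (w4 1 2) (c3 0 1 2),
    mk e4 (c4 0 3 2) e3,
    mk e4 e4 (w3 0 1)),
   (mk (c4 0 3 1) (w4 1 2) (c3 0 2 1),
    mk e4 (c4 0 3 2) e3,
    mk e4 e4 (w3 0 1)),
   (mk e4 e4 (w3 0 1),
    mk (c4 0 1 3) (c4 1 3 2) e3,
    mk (w4 1 3) (w4 2 3) e3),
   (mk e4 e4 (w3 0 2),
    mk (c4 0 1 3) (c4 1 3 2) e3,
    mk (w4 1 3) (w4 2 3) (w3 0 2)),
   (mk (w4 1 3) (w4 2 3) (w3 0 2),
    mk (c4 0 1 3) (c4 1 3 2) e3,
    mk e4 e4 (w3 0 1)),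
   (mk (w4 1 3) (w4 2 3) (w3 1 2),
    mk (c4 0 1 3) (c4 1 3 2) e3,
    mk e4 e4 (w3 0 1)),
   (mk e4 e4 (c3 0 2 1),
    mk (c4 0 1 3) (c4 1 3 2) e3,
    mk e4 e4 (w3 0 1)),
   (mk (c4 0 2 1) e4 (w3 0 1),
    mk (c4 0 2 3) (c4 0 2 1) e3,
    mk (w4 2 3) (w4 1 2) e3),
   (mk (c4 0 2 1) e4 (w3 0 2),
    mk (c4 0 2 3) (c4 0 2 1) e3,
    mk (w4 2 3) (w4 1 2) (w3 0 2)),
   (mk (q4 0 2 3 1) (w4 1 2) (w3 0 2),
    mk (c4 0 2 3) (c4 0 2 1) e3,
    mk e4 e4 (w3 0 1)),
   (mk (q4 0 2 3 1) (w4 1 2) (w3 1 2),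
    mk (c4 0 2 3) (c4 0 2 1) e3,
    mk e4 e4 (w3 0 1)),
   (mk (c4 0 2 1) e4 (c3 0 2 1),
    mk (c4 0 2 3) (c4 0 2 1) e3,
    mk e4 e4 (w3 0 1))]

/-- the subgroup generated by `z` (order 3) and an involution `t` normalising it -/
def six (z t : G) : List G := [1, z, z * z, t, z * t, z * z * t]

def tt : G := mk (1) (swap 0 3 * swap 1 2) (1)
def zz : G := mk (1) (1) (swap 0 1 * swap 1 2)

/-- the 25 special cosets: representative and list of the elements of the subgroup -/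
def special : List (G × List G) :=
  (mk (c4 0 1 2) e4 (c3 0 2 1), [1, tt]) ::
  (mk (c4 0 3 1) (d4 0 3 1 2) (w3 0 1), [1, zz, zz * zz]) ::
  lights.map (fun p => (p.1, six p.2.1 p.2.2))

theorem special_length : special.length = 25 := by decide

def spec (i : Fin 25) : G × List G := special.get (i.cast special_length.symm)

def rep (i : Fin 25) : G := (spec i).1
def subL (i : Fin 25) : List G := (spec i).2

/-- a list closed under multiplication and containing 1 -/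
def Closed (l : List G) : Prop := (1 : G) ∈ l ∧ ∀ x ∈ l, ∀ y ∈ l, x * y ∈ l

def Rel (z t : G) : Prop := z * z * z = 1 ∧ t * t = 1 ∧ (t * z = z * t ∨ t * z = z * z * t)

instance (z t : G) : Decidable (Rel z t) := by unfold Rel; infer_instance

theorem six_closed {z t : G} (h : Rel z t) : Closed (six z t) := by
  obtain ⟨hz, ht, hr⟩ := h
  refine ⟨by simp [six], ?_⟩
  have z1 : z * (z * z) = 1 := by rw [← mul_assoc]; exact hz
  have z2 : ∀ w, z * (z * (z * w)) = w := fun w => by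
    rw [← mul_assoc, ← mul_assoc, hz, one_mul]
  rcases hr with hr | hr
  · have r2 : ∀ w, t * (z * w) = z * (t * w) := fun w => by
      rw [← mul_assoc, hr, mul_assoc]
    intro x hx y hy
    simp only [six, List.mem_cons, List.not_mem_nil, or_false] at hx hy
    rcases hx with rfl | rfl | rfl | rfl | rfl | rfl <;>
    rcases hy with rfl | rfl | rfl | rfl | rfl | rfl <;>
    simp [six, mul_assoc, z1, z2, ht, hr, r2]
  · have hr' : t * z = z * (z * t) := by rw [hr, mul_assoc]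
    have r2 : ∀ w, t * (z * w) = z * (z * (t * w)) := fun w => by
      rw [← mul_assoc, hr, mul_assoc, mul_assoc]
    intro x hx y hy
    simp only [six, List.mem_cons, List.not_mem_nil, or_false] at hx hy
    rcases hx with rfl | rfl | rfl | rfl | rfl | rfl <;>
    rcases hy with rfl | rfl | rfl | rfl | rfl | rfl <;>
    simp [six, mul_assoc, z1, z2, ht, hr', r2]

set_option maxRecDepth 100000 in
theorem lights_rel : ∀ p ∈ lights, Rel p.2.1 p.2.2 := by decide +kernel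

set_option maxRecDepth 100000 in
theorem tt_sq : tt * tt = 1 := by decide +kernel

set_option maxRecDepth 100000 in
theorem zz_cube : zz * zz * zz = 1 := by decide +kernel

theorem special_closed : ∀ p ∈ special, Closed p.2 := by
  intro p hp
  simp only [special, List.mem_cons, List.mem_map] at hp
  rcases hp with rfl | rfl | ⟨q, hq, rfl⟩
  · refine ⟨by simp, ?_⟩
    intro x hx y hy
    simp only [List.mem_cons, List.not_mem_nil, or_false] at hx hy
    rcases hx with rfl | rfl <;> rcases hy with rfl | rfl <;> simp [tt_sq]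
  · have z1 : zz * (zz * zz) = 1 := by rw [← mul_assoc]; exact zz_cube
    refine ⟨by simp, ?_⟩
    intro x hx y hy
    simp only [List.mem_cons, List.not_mem_nil, or_false] at hx hy
    rcases hx with rfl | rfl | rfl <;> rcases hy with rfl | rfl | rfl <;>
      simp [mul_assoc, z1]
  · exact six_closed (lights_rel q hq)

theorem subL_closed (i : Fin 25) : Closed (subL i) :=
  special_closed _ (List.get_mem _ _)

end Pool.Agent.MP3175b5.Counter
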