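import Pool.Agent.Work.MP_3175b5_al_helper36.Codes

/-!
Assembly: 577 pairwise disjoint left cosets in `S_4 x S_4 x S_3`.
-/

namespace Pool.Agent.MP3175b5.Counter

open Equiv Pointwise

theorem pow_mem_list (l : List G) (h1 : (1 : G) ∈ l) (hm : ∀ x ∈ l, ∀ y ∈ l, x * y ∈ l)
    {x : G} (hx : x ∈ l) (n : ℕ) : x ^ n ∈ l := by
  induction n with
  | zero => simpa using h1
  | succ n ih => rw [pow_succ]; exact hm _ ih _ hx

/-- a finite list closed under multiplication, as a subgroup -/
def subOf (l : List G) (h1 : (1 : G) ∈ l) (hm : ∀ x ∈ l, ∀ y ∈ l, x * y ∈ l) : Subgroup G where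
  carrier := {x | x ∈ l}
  one_mem' := h1
  mul_mem' := fun hx hy => hm _ hx _ hy
  inv_mem' := by
    intro x hx
    have h : x⁻¹ = x ^ (orderOf x - 1) := by
      have hpos : 0 < orderOf x := orderOf_pos x
      have : x ^ (orderOf x - 1) * x = 1 := by
        rw [← pow_succ, Nat.sub_add_cancel hpos, pow_orderOf_eq_one]
      exact (eq_inv_of_mul_eq_one_left this).symm
    change x⁻¹ ∈ l
    rw [h]
    exact pow_mem_list l h1 hm hx _

theorem mem_subOf {l : List G} {h1 : (1 : G) ∈ l} {hm : ∀ x ∈ l, ∀ y ∈ l, x * y ∈ l} {x : G} :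
    x ∈ subOf l h1 hm ↔ x ∈ l := Iff.rfl

theorem card_subOf (l : List G) (h1 : (1 : G) ∈ l) (hm : ∀ x ∈ l, ∀ y ∈ l, x * y ∈ l) :
    Nat.card (subOf l h1 hm) = l.toFinset.card := by
  have : Nat.card (subOf l h1 hm) = Nat.card {x : G // x ∈ l.toFinset} := by
    apply Nat.card_congr
    exact Equiv.subtypeEquivRight (fun x => by rw [mem_subOf, List.mem_toFinset])
  rw [this, Nat.card_eq_fintype_card, Fintype.card_coe]

theorem card_G : Nat.card G = 3456 := by
  rw [Nat.card_eq_fintype_card]
  simp [G, K, Fintype.card_prod, Fintype.card_perm, Nat.factorial]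

theorem card_K : Fintype.card K = 576 := by
  simp [K, Fintype.card_prod, Fintype.card_perm, Nat.factorial]

/-- index type: the 552 (or more) untouched fibres and the 25 special cosets -/
abbrev Ix := {y : K // y ∉ XS} ⊕ Fin 25

theorem card_Ix : 577 ≤ Fintype.card Ix := by
  have h0 : Fintype.card Ix = Fintype.card {y : K // y ∉ XS} + 25 := by
    rw [Fintype.card_sum, Fintype.card_fin]
  have h1 : Fintype.card {y : K // y ∉ XS} = 576 - XS.card := by
    have e : Fintype.card {y : K // y ∉ XS} = (XSᶜ : Finset K).card := by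
      rw [← Fintype.card_coe]
      exact Fintype.card_congr (Equiv.subtypeEquivRight (fun y => by
        rw [Finset.mem_compl]))
    rw [e, Finset.card_compl, card_K]
  have h2 := card_XS
  omega

def HH : Ix → Subgroup G
  | .inl _ => (⊥ : Subgroup K).prod ⊤
  | .inr i => subOf (subL i) (subL_closed i).1 (subL_closed i).2

def AA : Ix → G
  | .inl y => (y.1, 1)
  | .inr i => rep i

theorem mem_coset {a g : G} {H : Subgroup G} : g ∈ a • (H : Set G) ↔ ∃ h ∈ H, g = a * h := by
  rw [Set.mem_smul_set]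
  constructor
  · rintro ⟨h, hh, rfl⟩
    exact ⟨h, hh, rfl⟩
  · rintro ⟨h, hh, rfl⟩
    exact ⟨h, hh, rfl⟩

theorem mem_code {i : Fin 25} {g : G} (hg : g ∈ AA (.inr i) • (HH (.inr i) : Set G)) :
    code g ∈ tabf i := by
  obtain ⟨h, hh, rfl⟩ := mem_coset.1 hg
  rw [← code_eq i]
  exact List.mem_map.2 ⟨h, hh, rfl⟩

theorem mem_fst {i : Fin 25} {g : G} (hg : g ∈ AA (.inr i) • (HH (.inr i) : Set G)) :
    g.1 ∈ XS := by
  obtain ⟨h, hh, rfl⟩ := mem_coset.1 hg
  exact mem_XS i h hh

theorem fst_eq {y : {y : K // y ∉ XS}} {g : G} (hg : g ∈ AA (.inl y) • (HH (.inl y) : Set G)) :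
    g.1 = y.1 := by
  obtain ⟨h, hh, rfl⟩ := mem_coset.1 hg
  have h1 : h.1 = 1 := Subgroup.mem_bot.1 (Subgroup.mem_prod.1 hh).1
  simp [AA, h1]

theorem disj (i j : Ix) (hij : i ≠ j) :
    Disjoint (AA i • (HH i : Set G)) (AA j • (HH j : Set G)) := by
  rw [Set.disjoint_left]
  intro g hi hj
  rcases i with y | i <;> rcases j with z | j
  · have := (fst_eq hi).symm.trans (fst_eq hj)
    exact hij (by rw [Subtype.ext this])
  · exact y.2 (by rw [← fst_eq hi]; exact mem_fst hj)
  · exact z.2 (by rw [← fst_eq hj]; exact mem_fst hi)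
  · exact tab_disj i j (fun h => hij (by rw [h])) _ (mem_code hi) (mem_code hj)

/-- the order of the subgroup -/
def od : Ix → ℕ
  | .inl _ => 6
  | .inr i => sz i

theorem card_HH (i : Ix) : Nat.card (HH i) = od i := by
  rcases i with y | i
  · change Nat.card ((⊥ : Subgroup K).prod (⊤ : Subgroup (Perm (Fin 3)))) = 6
    rw [Nat.card_congr (Subgroup.prodEquiv _ _).toEquiv, Nat.card_prod]
    simp [Nat.card_eq_fintype_card, Fintype.card_perm, Nat.factorial]
  · exact (card_subOf _ _ _).trans (card_subL i)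

theorem index_mul (i : Ix) : (HH i).index * od i = 3456 := by
  rw [← card_HH i, ← card_G]
  exact Subgroup.index_mul_card _

theorem index_cases (i : Ix) :
    ((HH i).index = 576 ∧ i ≠ .inr 0 ∧ i ≠ .inr 1) ∨ ((HH i).index = 1728 ∧ i = .inr 0) ∨
      ((HH i).index = 1152 ∧ i = .inr 1) := by
  have h := index_mul i
  rcases i with y | i
  · left
    refine ⟨?_, by simp, by simp⟩
    simp only [od] at h
    omega
  · by_cases h0 : i = 0
    · right; left
      subst h0
      refine ⟨?_, rfl⟩
      simp only [od, sz, if_true] at h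
      omega
    · by_cases h1 : i = 1
      · right; right
        subst h1
        refine ⟨?_, rfl⟩
        simp only [od, sz, if_true] at h
        rw [if_neg (by decide)] at h
        omega
      · left
        refine ⟨?_, by simpa using h0, by simpa using h1⟩
        simp only [od, sz, if_neg h0, if_neg h1] at h
        omega

theorem gcd_eq (i j : Ix) (hij : i ≠ j) : Nat.gcd (HH i).index (HH j).index = 576 := by
  rcases index_cases i with ⟨hi, _⟩ | ⟨hi, ei⟩ | ⟨hi, ei⟩ <;>
  rcases index_cases j with ⟨hj, _⟩ | ⟨hj, ej⟩ | ⟨hj, ej⟩ <;> rw [hi, hj]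
  all_goals first | rfl | exact absurd (ei.trans ej.symm) hij

theorem main : ∃ (H : Fin 577 → Subgroup G) (a : Fin 577 → G),
    (∀ i, (H i).FiniteIndex) ∧
    (∀ i j, i ≠ j → Disjoint (a i • (H i : Set G)) (a j • (H j : Set G))) ∧
    ∀ i j, i ≠ j → Nat.gcd (H i).index (H j).index = 576 := by
  have hc : Fintype.card (Fin 577) ≤ Fintype.card Ix := by
    rw [Fintype.card_fin]; exact card_Ix
  obtain ⟨e⟩ := Function.Embedding.nonempty_of_card_le hc
  refine ⟨fun i => HH (e i), fun i => AA (e i), fun i => inferInstance, ?_, ?_⟩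
  · intro i j hij
    exact disj _ _ (fun h => hij (e.injective h))
  · intro i j hij
    exact gcd_eq _ _ (fun h => hij (e.injective h))

end Pool.Agent.MP3175b5.Counter
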